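import Pool.Agent.Helper84.EXO.Roots
import Pool.Agent.Helper84.LR.Rel

/-!
# EXO, leaf O2: the relation `ρ₁ ρ₂ ρ₃ = π ^ 2 (q / π)`
-/

set_option autoImplicit false

open Polynomial

namespace Pool.Agent.Helper84.EXO

open Pool.Agent.Helper84.AA
open Pool.Agent.Helper8.EX (quad quad_fac map_frob)

theorem monic_vv (q : ℕ) : (vv q).Monic := by
  unfold vv
  refine Monic.mul ?_ ?_
  · have := monic_X_sub_C (1 : ℤ)
    rwa [C_1] at this
  · monicity!

/-- O2: the relation `ρ₁ ρ₂ ρ₃ = q π`. -/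
theorem exotic_vv {q : ℕ} (hq : 2 ≤ q) {u : ℤ[X]} (hu : u.Monic) :
    ∃ n : ℂ → ℤ, (∏ z ∈ ((frob q (vv q * u)).map (Int.castRingHom ℂ)).roots.toFinset, z ^ n z) = 1 ∧
      ∃ z ∈ ((frob q (vv q * u)).map (Int.castRingHom ℂ)).roots.toFinset, n z ≠ n (q / z) := by
  classical
  have hm : (vv q * u).Monic := (monic_vv q).mul hu
  have hq0 : (q : ℂ) ≠ 0 := by
    have : q ≠ 0 := by omega
    exact_mod_cast this
  obtain ⟨π, hπ, hπ1⟩ := quad (q : ℂ) hq0 1
  obtain ⟨ρ₁, ρ₂, ρ₃, e1, e2, e3⟩ := exists_rho (q : ℂ) π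
  obtain ⟨n1, n2, n3, hcub⟩ := cubic hq0 hπ hπ1.symm (mul_div_cancel₀ (q : ℂ) hπ) e1 e2 e3
  have hπq : π ^ 2 - π + q = 0 := by
    have h1 : π * (π + q / π) = π * 1 := by rw [← hπ1]
    rw [mul_add, mul_div_cancel₀ (q : ℂ) hπ] at h1
    linear_combination h1
  have hπ2 : π ^ 2 ≠ q := by
    intro h
    have h1 : π = 2 * q := by linear_combination h - hπq
    rw [h1] at h
    have h2 : (q : ℂ) * (4 * q - 1) = 0 := by linear_combination h
    rcases mul_eq_zero.1 h2 with h3 | h3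
    · exact hq0 h3
    · have h4 : ((4 * q : ℕ) : ℂ) = ((1 : ℕ) : ℂ) := by
        push_cast
        linear_combination h3
      rw [Nat.cast_inj] at h4
      omega
  have hπ3 : π ≠ q / π := by
    intro h
    apply hπ2
    calc π ^ 2 = π * π := sq π
      _ = π * (q / π) := by rw [← h]
      _ = q := mul_div_cancel₀ (q : ℂ) hπ
  have hQ : ∀ ρ : ℂ, ρ ^ 3 + ρ ^ 2 - π * ρ - q * π = 0 → π ≠ ρ := by
    rintro ρ h rfl
    have h1 : π * (π ^ 2 - q) = 0 := by linear_combination h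
    rcases mul_eq_zero.1 h1 with h2 | h2
    · exact hπ h2
    · exact hπ2 (sub_eq_zero.1 h2)
  have p1 : π ≠ ρ₁ := hQ ρ₁ (by linear_combination e3 + ρ₁ ^ 2 * e1 - ρ₁ * e2)
  have p2 : π ≠ ρ₂ := hQ ρ₂ (by linear_combination e3 + ρ₂ ^ 2 * e1 - ρ₂ * e2)
  have p3 : π ≠ ρ₃ := hQ ρ₃ (by linear_combination e3 + ρ₃ ^ 2 * e1 - ρ₃ * e2)
  set H : ℂ[X] := (vv q * u).map (Int.castRingHom ℂ) with hH
  set W : ℂ[X] := u.map (Int.castRingHom ℂ) with hWdef
  have hHm : H.Monic := hm.map _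
  have hW : H = (X - C (1 : ℂ)) * ((X - C (ρ₁ + q / ρ₁)) * (X - C (ρ₂ + q / ρ₂)) *
      (X - C (ρ₃ + q / ρ₃))) * W := by
    rw [hcub, hH, hWdef, vv]
    simp only [Polynomial.map_mul, Polynomial.map_sub, Polynomial.map_add, Polynomial.map_pow,
      map_X, map_C, Polynomial.map_one, Int.coe_castRingHom, C_1]
    push_cast
    rfl
  have hW0 : (X - C (1 : ℂ)) * ((X - C (ρ₁ + q / ρ₁)) * (X - C (ρ₂ + q / ρ₂)) *
      (X - C (ρ₃ + q / ρ₃))) * W ≠ 0 := by
    rw [← hW]
    exact hHm.ne_zero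
  have hroots : H.roots = 1 ::ₘ (ρ₁ + q / ρ₁) ::ₘ (ρ₂ + q / ρ₂) ::ₘ (ρ₃ + q / ρ₃) ::ₘ W.roots := by
    have g1 := left_ne_zero_of_mul hW0
    have g2 := right_ne_zero_of_mul g1
    have g3 := left_ne_zero_of_mul g2
    rw [hW, roots_mul hW0, roots_mul g1, roots_mul g2, roots_mul g3, roots_X_sub_C, roots_X_sub_C,
      roots_X_sub_C, roots_X_sub_C]
    simp only [Multiset.singleton_add, Multiset.cons_add]
  set P : ℂ[X] := (frob q (vv q * u)).map (Int.castRingHom ℂ) with hP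
  have hPi : P =
      ((X - C π) * (X - C (q / π))) * (((X - C ρ₁) * (X - C (q / ρ₁))) *
        (((X - C ρ₂) * (X - C (q / ρ₂))) * (((X - C ρ₃) * (X - C (q / ρ₃))) *
        (W.roots.map (fun r => X ^ 2 - C r * X + C (q : ℂ))).prod))) := by
    rw [hP, map_frob q (vv q * u) hm, ← hH, hroots, Multiset.map_cons, Multiset.map_cons,
      Multiset.map_cons, Multiset.map_cons, Multiset.prod_cons, Multiset.prod_cons,
      Multiset.prod_cons, Multiset.prod_cons, quad_fac (q : ℂ) ρ₁ n1, quad_fac (q : ℂ) ρ₂ n2,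
      quad_fac (q : ℂ) ρ₃ n3, ← quad_fac (q : ℂ) π hπ, ← hπ1]
  have hP0 : P ≠ 0 := (monic_map_frob q hm).ne_zero
  set S : Finset ℂ := P.roots.toFinset with hS
  have hmem : ∀ z, P.eval z = 0 → z ∈ S := fun z hz => by
    rw [hS, Multiset.mem_toFinset, mem_roots hP0]
    exact hz
  have mπ : π ∈ S := hmem _ (by rw [hPi]; simp)
  have mπ' : (q : ℂ) / π ∈ S := hmem _ (by rw [hPi]; simp)
  have m1 : ρ₁ ∈ S := hmem _ (by rw [hPi]; simp)
  have m2 : ρ₂ ∈ S := hmem _ (by rw [hPi]; simp)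
  have m3 : ρ₃ ∈ S := hmem _ (by rw [hPi]; simp)
  have hS0 : ∀ z ∈ S, z ≠ 0 := by
    intro z hz
    rw [hS, Multiset.mem_toFinset] at hz
    exact Pool.Agent.Helper84.LR.ne_zero_of (by omega) hm hz
  set M : Multiset ℂ := {ρ₁, ρ₂, ρ₃} with hM
  have hMS : M.toFinset ⊆ S := by
    intro z hz
    rw [Multiset.mem_toFinset, hM] at hz
    simp only [Multiset.insert_eq_cons, Multiset.mem_cons, Multiset.mem_singleton] at hz
    rcases hz with rfl | rfl | rfl
    · exact m1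
    · exact m2
    · exact m3
  have hMp : M.prod = q * π := by
    rw [hM]
    simp only [Multiset.insert_eq_cons, Multiset.prod_cons, Multiset.prod_singleton]
    rw [← e3]
    ring
  refine ⟨fun z => ((M.count z : ℕ) : ℤ) -
    (((if z = π then 2 else 0) + (if z = q / π then 1 else 0) : ℕ) : ℤ), ?_, π, mπ, ?_⟩
  · have hz : ∀ z ∈ S, z ^ (((M.count z : ℕ) : ℤ) -
        (((if z = π then 2 else 0) + (if z = q / π then 1 else 0) : ℕ) : ℤ)) =
        z ^ M.count z / (z ^ (if z = π then 2 else 0) * z ^ (if z = q / π then 1 else 0)) := by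
      intro z hz
      rw [zpow_sub₀ (hS0 z hz), zpow_natCast, zpow_natCast, pow_add]
    rw [Finset.prod_congr rfl hz, Finset.prod_div_distrib, Finset.prod_mul_distrib,
      ← Finset.prod_multiset_count_of_subset M S hMS, hMp]
    have d1 : (∏ z ∈ S, z ^ (if z = π then 2 else 0)) = π ^ 2 := by
      rw [Finset.prod_eq_single π]
      · simp
      · intro z _ h
        simp [h]
      · intro h
        exact absurd mπ h
    have d2 : (∏ z ∈ S, z ^ (if z = (q : ℂ) / π then 1 else 0)) = q / π := by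
      rw [Finset.prod_eq_single ((q : ℂ) / π)]
      · simp
      · intro z _ h
        simp [h]
      · intro h
        exact absurd mπ' h
    rw [d1, d2]
    field_simp
  · have c1 : M.count π = 0 := by
      rw [Multiset.count_eq_zero, hM]
      simp only [Multiset.insert_eq_cons, Multiset.mem_cons, Multiset.mem_singleton]
      rintro (h | h | h)
      · exact p1 h
      · exact p2 h
      · exact p3 h
    simp only [c1, if_true, if_neg hπ3, if_neg (Ne.symm hπ3)]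
    intro h
    have h2 : (0 : ℤ) ≤ ((M.count ((q : ℂ) / π) : ℕ) : ℤ) := Int.natCast_nonneg _
    push_cast at h
    omega

end Pool.Agent.Helper84.EXO
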