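import Pool.Agent.Helper84.EXO.Defs

/-!
# EXO, leaf O1: `vv q` is a trace polynomial
-/

set_option autoImplicit false

open Polynomial

namespace Pool.Agent.Helper84.EXO

open Pool.Agent.Helper84.AA

theorem natDegree_cub2 (q : ℕ) :
    (X ^ 3 + C 2 * X ^ 2 - C (3 * (q : ℤ)) * X - C (5 * (q : ℤ) + 1) : ℤ[X]).natDegree = 3 := by
  compute_degree!

theorem monic_cub2 (q : ℕ) :
    (X ^ 3 + C 2 * X ^ 2 - C (3 * (q : ℤ)) * X - C (5 * (q : ℤ) + 1) : ℤ[X]).Monic := by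
  monicity!

theorem isTrace_cub2 {q : ℕ} (hq : 16 ≤ q) :
    IsTrace q 3 (X ^ 3 + C 2 * X ^ 2 - C (3 * (q : ℤ)) * X - C (5 * (q : ℤ) + 1)) := by
  refine ⟨monic_cub2 q, natDegree_cub2 q, ?_⟩
  have hq1 : (16 : ℝ) ≤ q := by exact_mod_cast hq
  obtain ⟨s, hs⟩ : ∃ s, s = √(q : ℝ) := ⟨_, rfl⟩
  have hs0 : 0 ≤ s := by rw [hs]; exact Real.sqrt_nonneg _
  have hss : s * s = q := by rw [hs]; exact Real.mul_self_sqrt (by linarith)
  have hs4 : 4 ≤ s := by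
    rw [hs]
    apply Real.le_sqrt_of_sq_le
    linarith
  obtain ⟨f, hf⟩ : ∃ f : ℝ → ℝ, ∀ x, f x = x ^ 3 + 2 * x ^ 2 - 3 * q * x - (5 * q + 1) :=
    ⟨fun x => x ^ 3 + 2 * x ^ 2 - 3 * q * x - (5 * q + 1), fun _ => rfl⟩
  have hc : Continuous f := by
    rw [funext hf]
    fun_prop
  have v1 : f (-(2 * s)) ≤ 0 := by
    have : f (-(2 * s)) = -((s - 1) ^ 2 * (2 * s + 1)) := by
      rw [hf, ← hss]
      ring
    rw [this]
    have : 0 ≤ (s - 1) ^ 2 * (2 * s + 1) := by positivity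
    linarith
  have v2 : 0 < f (-s) := by
    have : f (-s) = s ^ 2 * (2 * s - 3) - 1 := by
      rw [hf, ← hss]
      ring
    rw [this]
    nlinarith
  have v3 : f 0 < 0 := by
    rw [hf]
    linarith
  have v4 : 0 ≤ f (2 * s) := by
    have : f (2 * s) = s ^ 2 * (2 * s + 3) - 1 := by
      rw [hf, ← hss]
      ring
    rw [this]
    nlinarith
  obtain ⟨x1, ⟨a1, b1⟩, r1⟩ : (0 : ℝ) ∈ f '' Set.Icc (-(2 * s)) (-s) :=
    intermediate_value_Icc (by linarith) hc.continuousOn ⟨v1, v2.le⟩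
  obtain ⟨x2, ⟨a2, b2⟩, r2⟩ : (0 : ℝ) ∈ f '' Set.Icc (-s) 0 :=
    intermediate_value_Icc' (by linarith) hc.continuousOn ⟨v3.le, v2.le⟩
  obtain ⟨x3, ⟨a3, b3⟩, r3⟩ : (0 : ℝ) ∈ f '' Set.Icc 0 (2 * s) :=
    intermediate_value_Icc (by linarith) hc.continuousOn ⟨v3.le, v4⟩
  have h12 : x1 - x2 ≠ 0 := by
    intro h
    have : x1 = -s := by linarith
    rw [this] at r1
    linarith
  have h23 : x2 - x3 ≠ 0 := by
    intro h
    have : x2 = 0 := by linarith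
    rw [this] at r2
    linarith
  have h13 : x1 - x3 ≠ 0 := by
    intro h
    have : x1 = -s := by linarith
    rw [this] at r1
    linarith
  have r1' : x1 ^ 3 + 2 * x1 ^ 2 - 3 * q * x1 - (5 * q + 1) = 0 := by rw [← r1, hf]
  have r2' : x2 ^ 3 + 2 * x2 ^ 2 - 3 * q * x2 - (5 * q + 1) = 0 := by rw [← r2, hf]
  have r3' : x3 ^ 3 + 2 * x3 ^ 2 - 3 * q * x3 - (5 * q + 1) = 0 := by rw [← r3, hf]
  have k12 : x1 ^ 2 + x1 * x2 + x2 ^ 2 + 2 * (x1 + x2) - 3 * q = 0 :=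
    (mul_eq_zero.1 (show (x1 - x2) * (x1 ^ 2 + x1 * x2 + x2 ^ 2 + 2 * (x1 + x2) - 3 * q) = 0 by
      linear_combination r1' - r2')).resolve_left h12
  have k23 : x2 ^ 2 + x2 * x3 + x3 ^ 2 + 2 * (x2 + x3) - 3 * q = 0 :=
    (mul_eq_zero.1 (show (x2 - x3) * (x2 ^ 2 + x2 * x3 + x3 ^ 2 + 2 * (x2 + x3) - 3 * q) = 0 by
      linear_combination r2' - r3')).resolve_left h23
  have A : x1 + x2 + x3 + 2 = 0 :=
    (mul_eq_zero.1 (show (x1 - x3) * (x1 + x2 + x3 + 2) = 0 by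
      linear_combination k12 - k23)).resolve_left h13
  have B : x1 * x2 + x1 * x3 + x2 * x3 + 3 * q = 0 := by
    linear_combination (x1 + x2) * A - k12
  have D : x1 * x2 * x3 - (5 * q + 1) = 0 := by
    linear_combination r1' - x1 ^ 2 * A + x1 * B
  have A' : (x1 : ℂ) + x2 + x3 + 2 = 0 := by exact_mod_cast A
  have B' : (x1 : ℂ) * x2 + x1 * x3 + x2 * x3 + 3 * q = 0 := by exact_mod_cast B
  have D' : (x1 : ℂ) * x2 * x3 - (5 * q + 1) = 0 := by exact_mod_cast D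
  intro z hz
  have hz1 : z ^ 3 + 2 * z ^ 2 - 3 * q * z - (5 * q + 1) = 0 := by
    have h1 : aeval z (X ^ 3 + C 2 * X ^ 2 - C (3 * (q : ℤ)) * X - C (5 * (q : ℤ) + 1) : ℤ[X]) =
        z ^ 3 + 2 * z ^ 2 - 3 * q * z - (5 * q + 1) := by
      rw [map_sub, map_sub, map_add, map_pow, map_mul, map_mul, map_pow, aeval_X, aeval_C, aeval_C,
        aeval_C, eq_intCast, eq_intCast, eq_intCast]
      push_cast
      ring
    rw [← h1, hz]
  have hfac : (z - x1) * ((z - x2) * (z - x3)) = 0 := by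
    linear_combination hz1 - z ^ 2 * A' + z * B' - D'
  have e1 : x1 ^ 2 ≤ 4 * q := by rw [← hss]; nlinarith
  have e2 : x2 ^ 2 ≤ 4 * q := by rw [← hss]; nlinarith
  have e3 : x3 ^ 2 ≤ 4 * q := by rw [← hss]; nlinarith
  rcases mul_eq_zero.1 hfac with h | h
  · exact ⟨x1, (sub_eq_zero.1 h).symm, e1⟩
  · rcases mul_eq_zero.1 h with h | h
    · exact ⟨x2, (sub_eq_zero.1 h).symm, e2⟩
    · exact ⟨x3, (sub_eq_zero.1 h).symm, e3⟩

/-- O1. -/
theorem isTrace_vv {q : ℕ} (hq : 16 ≤ q) : IsTrace q 4 (vv q) :=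
  Pool.Agent.Helper19.EX.isTrace_mul (Pool.Agent.Helper19.EX.isTrace_lin (by omega))
    (isTrace_cub2 hq)

theorem coeff_vv (q : ℕ) : (vv q).coeff 0 = 5 * (q : ℤ) + 1 := by
  rw [vv, mul_coeff_zero]
  simp

end Pool.Agent.Helper84.EXO
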