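import Pool.Agent.Helper84.EXO.Core
import Pool.Agent.Helper8.EX.E8core
import Pool.Agent.Helper84.LR.Defs

/-!
# EXO, leaf O6: tuples with the relation `ρ₁ ρ₂ ρ₃ = q π` are not `RelLefschetz`
-/

set_option autoImplicit false

open Polynomial

namespace Pool.Agent.Helper84.EXO

open Pool.Agent.Helper84.AA
open Pool.Agent.Helper84.LM (InfSim InLie)
open Pool.Agent.Helper84.LR (RelLefschetz powPoly)
open Pool.Agent.Helper19.AAR (splitF)
open Pool.Agent.Helper59.RL (Part orth)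

theorem monic_map_frob (q : ℕ) {h : ℤ[X]} (hm : h.Monic) :
    ((frob q h).map (Int.castRingHom ℂ)).Monic := by
  rw [Pool.Agent.Helper8.EX.map_frob q h hm]
  refine monic_multiset_prod_of_monic _ _ fun r _ => ?_
  have e : (X ^ 2 - C r * X + C (q : ℂ) : ℂ[X]) = X ^ 2 + (C (q : ℂ) - C r * X) := by ring
  rw [e]
  refine monic_X_pow_add ?_
  refine lt_of_le_of_lt (degree_sub_le _ _) (max_lt ?_ ?_)
  · exact lt_of_le_of_lt degree_C_le (by norm_num)
  · exact lt_of_le_of_lt (degree_C_mul_X_le r) (by norm_num)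

theorem powPoly_one {P : ℂ[X]} (hP : P.Monic) : powPoly 1 P = P := by
  unfold powPoly
  simp only [pow_one]
  exact ((IsAlgClosed.splits P).eq_prod_roots_of_monic hP).symm

theorem finrank_splitF_one : Module.finrank ℚ (splitF 1) = 1 := by
  have : splitF 1 = ⊥ := by
    unfold splitF
    have e : {z : ℂ | aeval z (1 : ℤ[X]) = 0} = ∅ := by
      ext z
      simp
    rw [e, IntermediateField.adjoin_empty]
  rw [this]
  exact IntermediateField.finrank_bot

theorem frob_one (q : ℕ) : frob q 1 = 1 := by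
  unfold frob
  simp

/-- O6 from the factorization of the product of all the `frob q (h j)`. -/
theorem not_lefschetz_of {q : ℕ} (hq : 2 ≤ q) {k : ℕ} {h : Fin k → ℤ[X]}
    (hh : ∀ j, (h j).Monic) {n : ℕ} {z : Fin n → ℂ} (hz : ∀ s, z s ≠ 0) (i₁ i₂ i₃ i₄ : Fin n)
    (hi : i₁ ≠ i₂ ∧ i₁ ≠ i₃ ∧ i₁ ≠ i₄ ∧ i₂ ≠ i₃ ∧ i₂ ≠ i₄ ∧ i₃ ≠ i₄)
    (hrel : z i₁ * z i₂ * z i₃ = q * z i₄)
    (hprod : (∏ j, (frob q (h j)).map (Int.castRingHom ℂ)) =
        ∏ s, ((X - C (z s)) * (X - C (q / z s)))) : ¬ RelLefschetz q h := by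
  intro hL
  have hq0 : (q : ℂ) ≠ 0 := by
    have : q ≠ 0 := by omega
    exact_mod_cast this
  obtain ⟨ψ, G, γ, B, hnd, halt, hγ, hsim, hss, hγs, hγq, hchar, hγe, h0, hB, hBs, hBc⟩ :=
    core3 (q : ℂ) hq0 z hz i₁ i₂ i₃ i₄ hi hrel
  have hcharR : LinearMap.charpoly (γ : Module.End ℂ (Fin n ⊕ Fin n → ℂ)) =
      (∏ i, powPoly 1 ((frob q (h i)).map (Int.castRingHom ℂ))) *
        (1 : ℤ[X]).map (Int.castRingHom ℂ) := by
    rw [Polynomial.map_one, mul_one, hchar, ← hprod]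
    exact Finset.prod_congr rfl fun j _ => (powPoly_one (monic_map_frob q (hh j))).symm
  set T : Set (Fin n ⊕ Fin n → ℂ) := {v | ∃ i, Module.finrank ℚ (splitF 1) < 2 ^ (h i).natDegree ∧
        ∃ z ∈ ((frob q (h i)).map (Int.castRingHom ℂ)).roots,
          (γ : Module.End ℂ (Fin n ⊕ Fin n → ℂ)) v = z ^ 1 • v} with hT
  obtain ⟨-, h2⟩ := hL (Fin n ⊕ Fin n → ℂ) ψ hnd halt G hsim hss γ hγ 1 one_ne_zero hγs
    (by simpa using hγq) 1 one_ne_zero hcharR (Part G T) rfl
  have hsT : ∀ s : Fin n ⊕ Fin n, (Pi.single s 1 : Fin n ⊕ Fin n → ℂ) ∈ T := by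
    intro s
    set w : ℂ := Sum.elim z (fun t => (q : ℂ) / z t) s with hw
    have hroot : (∏ j, (frob q (h j)).map (Int.castRingHom ℂ)).eval w = 0 := by
      rw [hprod, eval_prod]
      rcases s with s | s
      · refine Finset.prod_eq_zero (Finset.mem_univ s) ?_
        simp [hw]
      · refine Finset.prod_eq_zero (Finset.mem_univ s) ?_
        simp [hw]
    rw [eval_prod, Finset.prod_eq_zero_iff] at hroot
    obtain ⟨j, -, hj⟩ := hroot
    refine ⟨j, ?_, w, ?_, ?_⟩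
    · rw [finrank_splitF_one]
      refine Nat.one_lt_two_pow ?_
      intro hd
      have h1 : h j = 1 := (hh j).natDegree_eq_zero.1 hd
      rw [h1, frob_one] at hj
      simp at hj
    · exact (mem_roots (monic_map_frob q (hh j)).ne_zero).2 hj
    · rw [pow_one]
      exact hγe s
  have htop : Part G T = ⊤ := by
    rw [eq_top_iff]
    intro v _
    have hv : v = ∑ s, v s • (Pi.single s 1 : Fin n ⊕ Fin n → ℂ) := by
      funext t
      rw [Finset.sum_apply, Finset.sum_eq_single t]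
      · simp
      · intro s _ hst
        simp [Pi.single_apply, Ne.symm hst]
      · intro h
        exact absurd (Finset.mem_univ t) h
    rw [hv]
    refine Submodule.sum_mem _ fun s _ => Submodule.smul_mem _ _ ?_
    show (Pi.single s 1 : Fin n ⊕ Fin n → ℂ) ∈ sInf {U : Submodule ℂ (Fin n ⊕ Fin n → ℂ) |
      (∀ X, InLie G X → ∀ u ∈ U, X u ∈ U) ∧ T ⊆ U}
    rw [Submodule.mem_sInf]
    intro U hU
    exact hU.2 (hsT s)
  refine hB ((h2 B).2 ⟨hBs, hBc, 0, h0, ?_⟩)
  intro v hv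
  have hv0 : v = 0 := by
    refine hnd.1 v fun y => ?_
    refine hv y ?_
    rw [htop]
    exact Submodule.mem_top
  rw [hv0, map_zero, map_zero]

end Pool.Agent.Helper84.EXO
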