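import Pool.Agent.Helper84.EXO.Defs
import Pool.Agent.Helper84.EXO.NotLef
import Pool.Agent.Helper8.EX.E8core

/-!
# EXO, leaf O4: the roots of the product of all the `frob q (h j)`, and leaf O6
-/

set_option autoImplicit false

open Polynomial

namespace Pool.Agent.Helper84.EXO

open Pool.Agent.Helper84.AA
open Pool.Agent.Helper84.LR (RelLefschetz)
open Pool.Agent.Helper8.EX (quad quad_fac Nice nice_multiset map_frob)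

/-- The roots of `T ^ 3 + T ^ 2 - π T - q π`. -/
theorem exists_rho (q π : ℂ) : ∃ ρ₁ ρ₂ ρ₃ : ℂ, ρ₁ + ρ₂ + ρ₃ = -1 ∧
    ρ₁ * ρ₂ + ρ₁ * ρ₃ + ρ₂ * ρ₃ = -π ∧ ρ₁ * ρ₂ * ρ₃ = q * π := by
  have hd : (X ^ 3 + X ^ 2 - C π * X - C (q * π) : ℂ[X]).degree ≠ 0 := by
    have : (X ^ 3 + X ^ 2 - C π * X - C (q * π) : ℂ[X]).degree = 3 := by
      compute_degree!
    rw [this]
    decide
  obtain ⟨ρ₁, h1⟩ := IsAlgClosed.exists_root _ hd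
  have h1' : ρ₁ ^ 3 + ρ₁ ^ 2 - π * ρ₁ - q * π = 0 := by
    have := h1
    rw [IsRoot.def] at this
    simpa using this
  have hd2 : (X ^ 2 + C (1 + ρ₁) * X + C (ρ₁ ^ 2 + ρ₁ - π) : ℂ[X]).degree ≠ 0 := by
    have : (X ^ 2 + C (1 + ρ₁) * X + C (ρ₁ ^ 2 + ρ₁ - π) : ℂ[X]).degree = 2 := by
      compute_degree!
    rw [this]
    decide
  obtain ⟨ρ₂, h2⟩ := IsAlgClosed.exists_root _ hd2
  have h2' : ρ₂ ^ 2 + (1 + ρ₁) * ρ₂ + (ρ₁ ^ 2 + ρ₁ - π) = 0 := by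
    have := h2
    rw [IsRoot.def] at this
    simpa using this
  refine ⟨ρ₁, ρ₂, -(1 + ρ₁) - ρ₂, by ring, by linear_combination -h2', ?_⟩
  linear_combination h1' - ρ₁ * h2'

/-- The factorization of the cubic over `ℂ`. -/
theorem cubic {q π π' : ℂ} (hq : q ≠ 0) (hπ : π ≠ 0) (hs : π + π' = 1) (hp : π * π' = q)
    {ρ₁ ρ₂ ρ₃ : ℂ} (e1 : ρ₁ + ρ₂ + ρ₃ = -1) (e2 : ρ₁ * ρ₂ + ρ₁ * ρ₃ + ρ₂ * ρ₃ = -π)
    (e3 : ρ₁ * ρ₂ * ρ₃ = q * π) :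
    ρ₁ ≠ 0 ∧ ρ₂ ≠ 0 ∧ ρ₃ ≠ 0 ∧
    (X - C (ρ₁ + q / ρ₁)) * (X - C (ρ₂ + q / ρ₂)) * (X - C (ρ₃ + q / ρ₃)) =
      (X ^ 3 + C 2 * X ^ 2 - C (3 * q) * X - C (5 * q + 1) : ℂ[X]) := by
  have hqπ : q * π ≠ 0 := mul_ne_zero hq hπ
  have n1 : ρ₁ ≠ 0 := by rintro rfl; exact hqπ (by rw [← e3]; ring)
  have n2 : ρ₂ ≠ 0 := by rintro rfl; exact hqπ (by rw [← e3]; ring)
  have n3 : ρ₃ ≠ 0 := by rintro rfl; exact hqπ (by rw [← e3]; ring)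
  refine ⟨n1, n2, n3, ?_⟩
  obtain ⟨w₁, hw₁⟩ : ∃ w, w = q / ρ₁ := ⟨_, rfl⟩
  obtain ⟨w₂, hw₂⟩ : ∃ w, w = q / ρ₂ := ⟨_, rfl⟩
  obtain ⟨w₃, hw₃⟩ : ∃ w, w = q / ρ₃ := ⟨_, rfl⟩
  have m1 : ρ₁ * w₁ = q := by rw [hw₁]; exact mul_div_cancel₀ q n1
  have m2 : ρ₂ * w₂ = q := by rw [hw₂]; exact mul_div_cancel₀ q n2
  have m3 : ρ₃ * w₃ = q := by rw [hw₃]; exact mul_div_cancel₀ q n3
  rw [← hw₁, ← hw₂, ← hw₃]
  -- `ρ₁ ρ₂ = π w₃`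
  have a3 : ρ₁ * ρ₂ = π * w₃ := mul_right_cancel₀ n3 (by linear_combination e3 - π * m3)
  have a2 : ρ₁ * ρ₃ = π * w₂ := mul_right_cancel₀ n2 (by linear_combination e3 - π * m2)
  have a1 : ρ₂ * ρ₃ = π * w₁ := mul_right_cancel₀ n1 (by linear_combination e3 - π * m1)
  have f1 : w₁ + w₂ + w₃ = -1 := mul_left_cancel₀ hπ (by linear_combination e2 - a1 - a2 - a3)
  have hπ' : π' ≠ 0 := by rintro rfl; exact hq (by rw [← hp]; ring)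
  -- `w₂ w₃ = π' ρ₁`
  have b1 : w₂ * w₃ = π' * ρ₁ := by
    refine mul_left_cancel₀ (mul_ne_zero n2 n3) ?_
    linear_combination (w₃ * ρ₃) * m2 + q * m3 - π' * e3 - q * hp
  have b2 : w₁ * w₃ = π' * ρ₂ := by
    refine mul_left_cancel₀ (mul_ne_zero n1 n3) ?_
    linear_combination (w₃ * ρ₃) * m1 + q * m3 - π' * e3 - q * hp
  have b3 : w₁ * w₂ = π' * ρ₃ := by
    refine mul_left_cancel₀ (mul_ne_zero n1 n2) ?_
    linear_combination (w₂ * ρ₂) * m1 + q * m2 - π' * e3 - q * hp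
  have f2 : w₁ * w₂ + w₁ * w₃ + w₂ * w₃ = -π' := by
    linear_combination b1 + b2 + b3 + π' * e1
  have S1 : (ρ₁ + w₁) + (ρ₂ + w₂) + (ρ₃ + w₃) = -2 := by linear_combination e1 + f1
  have S2 : (ρ₁ + w₁) * (ρ₂ + w₂) + (ρ₁ + w₁) * (ρ₃ + w₃) + (ρ₂ + w₂) * (ρ₃ + w₃) = -(3 * q) := by
    linear_combination e2 + f2 + (ρ₁ + ρ₂ + ρ₃) * f1 - e1 - m1 - m2 - m3 - hs
  have S3 : (ρ₁ + w₁) * (ρ₂ + w₂) * (ρ₃ + w₃) = 5 * q + 1 := by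
    have t1 : ρ₁ * ρ₂ * w₃ + ρ₁ * ρ₃ * w₂ + ρ₂ * ρ₃ * w₁ = π + 2 * q := by
      linear_combination w₃ * a3 + w₂ * a2 + w₁ * a1 + π * (w₁ + w₂ + w₃) * f1 - π * f1
        - 2 * π * f2 + 2 * hp
    have t2 : w₁ * w₂ * ρ₃ + w₁ * w₃ * ρ₂ + w₂ * w₃ * ρ₁ = π' + 2 * q := by
      linear_combination ρ₃ * b3 + ρ₂ * b2 + ρ₁ * b1 + π' * (ρ₁ + ρ₂ + ρ₃) * e1 - π' * e1
        - 2 * π' * e2 + 2 * hp
    have t3 : w₁ * w₂ * w₃ = q * π' := by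
      linear_combination w₁ * b1 + π' * m1
    linear_combination e3 + t3 + t1 + t2 + (q + 1) * hs
  have hC : ∀ x y : ℂ, C (x * y) = C x * C y := fun x y => C_mul
  calc (X - C (ρ₁ + w₁)) * (X - C (ρ₂ + w₂)) * (X - C (ρ₃ + w₃))
      = X ^ 3 - C ((ρ₁ + w₁) + (ρ₂ + w₂) + (ρ₃ + w₃)) * X ^ 2 +
        C ((ρ₁ + w₁) * (ρ₂ + w₂) + (ρ₁ + w₁) * (ρ₃ + w₃) + (ρ₂ + w₂) * (ρ₃ + w₃)) * X -
        C ((ρ₁ + w₁) * (ρ₂ + w₂) * (ρ₃ + w₃)) := by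
        simp only [C_add, C_mul]
        ring
    _ = _ := by
        rw [S1, S2, S3]
        simp only [C_neg, C_add, C_mul]
        ring

/-- O4: the roots. -/
theorem roots_vv {q : ℕ} (hq : 2 ≤ q) {k : ℕ} {h : Fin k → ℤ[X]} (hh : ∀ j, (h j).Monic)
    (i : Fin k) {u : ℤ[X]} (hi : h i = vv q * u) :
    ∃ (n : ℕ) (z : Fin n → ℂ) (a b c d : Fin n), (∀ s, z s ≠ 0) ∧
      (a ≠ b ∧ a ≠ c ∧ a ≠ d ∧ b ≠ c ∧ b ≠ d ∧ c ≠ d) ∧ z a * z b * z c = q * z d ∧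
      (∏ j, (frob q (h j)).map (Int.castRingHom ℂ)) =
        ∏ s, ((X - C (z s)) * (X - C (q / z s))) := by
  classical
  have hq0 : (q : ℂ) ≠ 0 := by
    have : q ≠ 0 := by omega
    exact_mod_cast this
  obtain ⟨π, hπ, hπ1⟩ := quad (q : ℂ) hq0 1
  obtain ⟨ρ₁, ρ₂, ρ₃, e1, e2, e3⟩ := exists_rho (q : ℂ) π
  obtain ⟨n1, n2, n3, hcub⟩ := cubic hq0 hπ hπ1.symm (mul_div_cancel₀ (q : ℂ) hπ) e1 e2 e3
  set H : ℂ[X] := (h i).map (Int.castRingHom ℂ) with hH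
  have hHm : H.Monic := (hh i).map _
  set W : ℂ[X] := u.map (Int.castRingHom ℂ) with hWdef
  have hW : H = (X - C (1 : ℂ)) * ((X - C (ρ₁ + q / ρ₁)) * (X - C (ρ₂ + q / ρ₂)) *
      (X - C (ρ₃ + q / ρ₃))) * W := by
    rw [hcub, hH, hi, hWdef, vv]
    simp only [Polynomial.map_mul, Polynomial.map_sub, Polynomial.map_add, Polynomial.map_pow,
      map_X, map_C, Polynomial.map_one, Int.coe_castRingHom, C_1]
    push_cast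
    rfl
  have hW0 : (X - C (1 : ℂ)) * ((X - C (ρ₁ + q / ρ₁)) * (X - C (ρ₂ + q / ρ₂)) *
      (X - C (ρ₃ + q / ρ₃))) * W ≠ 0 := by
    rw [← hW]
    exact hHm.ne_zero
  have hroots : H.roots = 1 ::ₘ (ρ₁ + q / ρ₁) ::ₘ (ρ₂ + q / ρ₂) ::ₘ (ρ₃ + q / ρ₃) ::ₘ W.roots := by
    have g1 := left_ne_zero_of_mul hW0
    have g2 := right_ne_zero_of_mul g1
    have g3 := left_ne_zero_of_mul g2
    rw [hW, roots_mul hW0, roots_mul g1, roots_mul g2, roots_mul g3, roots_X_sub_C, roots_X_sub_C,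
      roots_X_sub_C, roots_X_sub_C]
    simp only [Multiset.singleton_add, Multiset.cons_add]
  have hPi : (frob q (h i)).map (Int.castRingHom ℂ) =
      ((X - C π) * (X - C (q / π))) * (((X - C ρ₁) * (X - C (q / ρ₁))) *
        (((X - C ρ₂) * (X - C (q / ρ₂))) * (((X - C ρ₃) * (X - C (q / ρ₃))) *
        (W.roots.map (fun r => X ^ 2 - C r * X + C (q : ℂ))).prod))) := by
    rw [map_frob q (h i) (hh i), ← hH, hroots, Multiset.map_cons, Multiset.map_cons,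
      Multiset.map_cons, Multiset.map_cons, Multiset.prod_cons, Multiset.prod_cons,
      Multiset.prod_cons, Multiset.prod_cons, quad_fac (q : ℂ) ρ₁ n1, quad_fac (q : ℂ) ρ₂ n2,
      quad_fac (q : ℂ) ρ₃ n3, ← quad_fac (q : ℂ) π hπ, ← hπ1]
  obtain ⟨l, hl, hlP⟩ : Nice (q : ℂ) ((W.roots.map (fun r => X ^ 2 - C r * X + C (q : ℂ))).prod *
      ∏ j ∈ Finset.univ.erase i, (frob q (h j)).map (Int.castRingHom ℂ)) := by
    refine (nice_multiset (q : ℂ) hq0 _).mul (Nice.prod _ _ fun j _ => ?_)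
    rw [map_frob q (h j) (hh j)]
    exact nice_multiset (q : ℂ) hq0 _
  have htot : (∏ j, (frob q (h j)).map (Int.castRingHom ℂ)) =
      (((ρ₁ :: ρ₂ :: ρ₃ :: π :: l).map (fun z => (X - C z) * (X - C ((q : ℂ) / z)))).prod) := by
    rw [← Finset.mul_prod_erase Finset.univ _ (Finset.mem_univ i), hPi, List.map_cons,
      List.map_cons, List.map_cons, List.map_cons, List.prod_cons, List.prod_cons, List.prod_cons,
      List.prod_cons, ← hlP]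
    ring
  refine ⟨(ρ₁ :: ρ₂ :: ρ₃ :: π :: l).length, fun s => (ρ₁ :: ρ₂ :: ρ₃ :: π :: l).get s,
    ⟨0, by simp⟩, ⟨1, by simp⟩, ⟨2, by simp⟩, ⟨3, by simp⟩, ?_, ?_, ?_, ?_⟩
  · intro s
    show (ρ₁ :: ρ₂ :: ρ₃ :: π :: l).get s ≠ 0
    have hs : (ρ₁ :: ρ₂ :: ρ₃ :: π :: l).get s ∈ ρ₁ :: ρ₂ :: ρ₃ :: π :: l := List.get_mem _ _
    rcases List.mem_cons.1 hs with h1 | h1
    · rw [h1]; exact n1
    · rcases List.mem_cons.1 h1 with h2 | h2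
      · rw [h2]; exact n2
      · rcases List.mem_cons.1 h2 with h3 | h3
        · rw [h3]; exact n3
        · rcases List.mem_cons.1 h3 with h4 | h4
          · rw [h4]; exact hπ
          · exact hl _ h4
  · refine ⟨?_, ?_, ?_, ?_, ?_, ?_⟩ <;>
    · intro h1
      have := congrArg Fin.val h1
      simp at this
  · exact e3
  · rw [htot]
    exact (Fin.prod_univ_fun_getElem (ρ₁ :: ρ₂ :: ρ₃ :: π :: l)
      (fun z => (X - C z) * (X - C ((q : ℂ) / z)))).symm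

/-- O6. -/
theorem not_lefschetz_vv {q : ℕ} (hq : 2 ≤ q) {k : ℕ} {h : Fin k → ℤ[X]}
    (hh : ∀ j, (h j).Monic) (i : Fin k) {u : ℤ[X]}
    (hi : h i = vv q * u) : ¬ RelLefschetz q h := by
  obtain ⟨n, z, a, b, c, d, hz, hd, hrel, hprod⟩ := roots_vv hq hh i hi
  exact not_lefschetz_of hq hh hz a b c d hd hrel hprod

end Pool.Agent.Helper84.EXO
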