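import Pool.Agent.Helper83.EX.EX1

/-!
# EXO: the ordinary polynomial `vv` (an elliptic curve times an ordinary threefold, Weil type)
-/

set_option autoImplicit false

open Polynomial

namespace Pool.Agent.Helper84.EXO

/-- `(T - 1) (T ^ 3 + 2 T ^ 2 - 3 q T - (5 q + 1))`: `frob` is `(T ^ 2 - T + q) Q Q'` with
`Q = T ^ 3 + T ^ 2 - π T - q π`, `Q' = T ^ 3 + T ^ 2 - π' T - q π'`, `π + π' = 1`, `π π' = q`. -/
noncomputable def vv (q : ℕ) : ℤ[X] :=
  (X - 1) * (X ^ 3 + C 2 * X ^ 2 - C (3 * (q : ℤ)) * X - C (5 * (q : ℤ) + 1))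

end Pool.Agent.Helper84.EXO
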