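import Pool.Agent.Helper84.EX.EX7

/-!
# EXO, leaf O5: the linear algebra for the relation `z i₁ * z i₂ * z i₃ = q * z i₄`
-/

set_option autoImplicit false

open Polynomial

namespace Pool.Agent.Helper84.EXO

open Pool.Agent.Helper84.LM (InfSim InLie polyFun)
open Pool.Agent.Helper84.EX7

variable {ι : Type} [Fintype ι] [DecidableEq ι]

/-- The group. -/
def grp3 (i₁ i₂ i₃ i₄ : ι) : Subgroup (Module.End ℂ (ι ⊕ ι → ℂ))ˣ where
  carrier := {g | ∃ (d : ι ⊕ ι → ℂ) (c : ℂ), (g : Module.End ℂ (ι ⊕ ι → ℂ)) = DD d ∧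
    (∀ s, d s ≠ 0) ∧ (∀ s, d (Sum.inl s) * d (Sum.inr s) = c) ∧
    d (Sum.inl i₁) * d (Sum.inl i₂) * d (Sum.inl i₃) = c * d (Sum.inl i₄)}
  one_mem' := ⟨fun _ => 1, 1, by rw [DD_one]; rfl, fun _ => one_ne_zero, fun _ => by norm_num,
    by norm_num⟩
  mul_mem' := by
    rintro g g' ⟨d, c, h1, h2, h3, h4⟩ ⟨d', c', h1', h2', h3', h4'⟩
    refine ⟨fun s => d s * d' s, c * c', ?_, fun s => mul_ne_zero (h2 s) (h2' s), fun s => ?_, ?_⟩
    · rw [Units.val_mul, h1, h1', DD_mul]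
    · rw [← h3 s, ← h3' s]; ring
    · calc d (Sum.inl i₁) * d' (Sum.inl i₁) * (d (Sum.inl i₂) * d' (Sum.inl i₂)) *
            (d (Sum.inl i₃) * d' (Sum.inl i₃))
          = (d (Sum.inl i₁) * d (Sum.inl i₂) * d (Sum.inl i₃)) *
            (d' (Sum.inl i₁) * d' (Sum.inl i₂) * d' (Sum.inl i₃)) := by ring
        _ = c * c' * (d (Sum.inl i₄) * d' (Sum.inl i₄)) := by rw [h4, h4']; ring
  inv_mem' := by
    rintro g ⟨d, c, h1, h2, h3, h4⟩
    refine ⟨fun s => (d s)⁻¹, c⁻¹, ?_, fun s => inv_ne_zero (h2 s), fun s => ?_, ?_⟩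
    · have h5 : (g : Module.End ℂ (ι ⊕ ι → ℂ)) * DD (fun s => (d s)⁻¹) = 1 := by
        rw [h1, DD_mul, ← DD_one]
        congr 1
        funext s
        exact mul_inv_cancel₀ (h2 s)
      calc ((g⁻¹ : (Module.End ℂ (ι ⊕ ι → ℂ))ˣ) : Module.End ℂ (ι ⊕ ι → ℂ))
          = ((g⁻¹ : (Module.End ℂ (ι ⊕ ι → ℂ))ˣ) : Module.End ℂ (ι ⊕ ι → ℂ)) *
            ((g : Module.End ℂ (ι ⊕ ι → ℂ)) * DD (fun s => (d s)⁻¹)) := by rw [h5, mul_one]
        _ = DD (fun s => (d s)⁻¹) := by rw [← mul_assoc, Units.inv_mul, one_mul]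
    · rw [← mul_inv, h3 s]
    · rw [← mul_inv, ← mul_inv, h4, mul_inv]

/-- Elements of the Lie algebra. -/
theorem inLie_grp3 {i₁ i₂ i₃ i₄ : ι} {x : ι ⊕ ι → ℂ} {c : ℂ}
    (h1 : ∀ s, x (Sum.inl s) + x (Sum.inr s) = c)
    (h2 : x (Sum.inl i₁) + x (Sum.inl i₂) + x (Sum.inl i₃) = c + x (Sum.inl i₄)) :
    InLie (grp3 i₁ i₂ i₃ i₄) (DD x) := by
  apply inLie_of_exp
  intro t
  have hu : (DD fun s => Complex.exp (t * x s)) * (DD fun s => Complex.exp (-(t * x s))) = 1 := by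
    rw [DD_mul, ← DD_one]
    congr 1
    funext s
    rw [← Complex.exp_add, add_neg_cancel, Complex.exp_zero]
  have hu' : (DD fun s => Complex.exp (-(t * x s))) * (DD fun s => Complex.exp (t * x s)) = 1 := by
    rw [DD_mul, ← DD_one]
    congr 1
    funext s
    rw [← Complex.exp_add, neg_add_cancel, Complex.exp_zero]
  refine ⟨⟨_, _, hu, hu'⟩, ⟨fun s => Complex.exp (t * x s), Complex.exp (t * c), rfl,
    fun s => Complex.exp_ne_zero _, fun s => ?_, ?_⟩, rfl⟩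
  · rw [← Complex.exp_add, ← h1 s]; congr 1; ring
  · rw [← Complex.exp_add, ← Complex.exp_add, ← Complex.exp_add]
    congr 1
    linear_combination t * h2

/-- A necessary condition. -/
theorem rel_of_inLie3 {i₁ i₂ i₃ i₄ : ι} {X : Module.End ℂ (ι ⊕ ι → ℂ)}
    (h : InLie (grp3 i₁ i₂ i₃ i₄) X) :
    X (Pi.single (Sum.inl i₁) 1) (Sum.inl i₁) + X (Pi.single (Sum.inl i₂) 1) (Sum.inl i₂) +
      X (Pi.single (Sum.inl i₃) 1) (Sum.inl i₃) =
      2 * X (Pi.single (Sum.inl i₄) 1) (Sum.inl i₄) +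
        X (Pi.single (Sum.inr i₄) 1) (Sum.inr i₄) := by
  set A := X (Pi.single (Sum.inl i₁) 1) (Sum.inl i₁) with hA
  set A' := X (Pi.single (Sum.inl i₂) 1) (Sum.inl i₂) with hA'
  set A'' := X (Pi.single (Sum.inl i₃) 1) (Sum.inl i₃) with hA''
  set B := X (Pi.single (Sum.inl i₄) 1) (Sum.inl i₄) with hB
  set B' := X (Pi.single (Sum.inr i₄) 1) (Sum.inr i₄) with hB'
  have h1 := h (fun g => (g (Pi.single (Sum.inl i₁) 1) (Sum.inl i₁)) *
      (g (Pi.single (Sum.inl i₂) 1) (Sum.inl i₂)) * (g (Pi.single (Sum.inl i₃) 1) (Sum.inl i₃))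
      - (g (Pi.single (Sum.inl i₄) 1) (Sum.inl i₄)) ^ 2 *
        (g (Pi.single (Sum.inr i₄) 1) (Sum.inr i₄))) ?_ ?_
  · have e : (fun t : ℂ => ((1 + t • X) (Pi.single (Sum.inl i₁) 1 : ι ⊕ ι → ℂ) (Sum.inl i₁)) *
      ((1 + t • X) (Pi.single (Sum.inl i₂) 1 : ι ⊕ ι → ℂ) (Sum.inl i₂)) *
      ((1 + t • X) (Pi.single (Sum.inl i₃) 1 : ι ⊕ ι → ℂ) (Sum.inl i₃))
      - ((1 + t • X) (Pi.single (Sum.inl i₄) 1 : ι ⊕ ι → ℂ) (Sum.inl i₄)) ^ 2 *
        ((1 + t • X) (Pi.single (Sum.inr i₄) 1 : ι ⊕ ι → ℂ) (Sum.inr i₄)))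
        = fun t : ℂ => (1 + t * A) * (1 + t * A') * (1 + t * A'') -
          (1 + t * B) ^ 2 * (1 + t * B') := by
      funext t
      simp [hA, hA', hA'', hB, hB']
    rw [e] at h1
    have l : ∀ c : ℂ, HasDerivAt (fun t : ℂ => 1 + t * c) c 0 := fun c => by
      simpa using ((hasDerivAt_id (0 : ℂ)).mul_const c).const_add 1
    have h2 := ((((l A).fun_mul (l A')).fun_mul (l A'')).fun_sub
      (((l B).fun_pow 2).fun_mul (l B'))).deriv
    rw [h2] at h1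
    simp at h1
    linear_combination h1
  · exact Subalgebra.sub_mem _ (Subalgebra.mul_mem _ (Subalgebra.mul_mem _ (entry_mem _ _)
      (entry_mem _ _)) (entry_mem _ _))
      (Subalgebra.mul_mem _ (Subalgebra.pow_mem _ (entry_mem _ _) 2) (entry_mem _ _))
  · rintro g ⟨d, c, h1, h2, h3, h4⟩
    simp only [h1, DD_single, Pi.smul_apply, Pi.single_eq_same, smul_eq_mul, mul_one]
    rw [h4, ← h3 i₄]
    ring

/-- Off-diagonal entries vanish. -/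
theorem diag_of_inLie3 {i₁ i₂ i₃ i₄ : ι} {X : Module.End ℂ (ι ⊕ ι → ℂ)}
    (h : InLie (grp3 i₁ i₂ i₃ i₄) X) : ∃ x, X = DD x := by
  have hoff : ∀ s t, s ≠ t → X (Pi.single s 1) t = 0 := by
    intro s t hst
    have h1 := h (fun g => g (Pi.single s 1) t) (entry_mem s t) ?_
    · have e : (fun u : ℂ => (1 + u • X) (Pi.single s 1 : ι ⊕ ι → ℂ) t)
          = fun u : ℂ => u * X (Pi.single s 1) t := by
        funext u
        simp [Pi.single_apply, Ne.symm hst]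
      rw [e] at h1
      have h2 : HasDerivAt (fun u : ℂ => u * X (Pi.single s 1) t) (X (Pi.single s 1) t) 0 := by
        simpa using (hasDerivAt_id (0 : ℂ)).mul_const (X (Pi.single s 1) t)
      rw [h2.deriv] at h1
      exact h1
    · rintro g ⟨d, c, h1, -⟩
      simp only [h1, DD_single]
      simp [Pi.single_apply, Ne.symm hst]
  refine ⟨fun s => X (Pi.single s 1) s, ?_⟩
  refine LinearMap.pi_ext' fun s => ?_
  ext t
  simp only [LinearMap.comp_apply, LinearMap.single_apply]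
  rw [DD_single, Pi.smul_apply, smul_eq_mul]
  by_cases hst : s = t
  · subst hst; simp
  · rw [hoff s t hst]; simp [Ne.symm hst]

/-- An element with distinct entries. -/
theorem exists_sep3 (i₁ i₂ i₃ i₄ : ι)
    (hi : i₁ ≠ i₂ ∧ i₁ ≠ i₃ ∧ i₁ ≠ i₄ ∧ i₂ ≠ i₃ ∧ i₂ ≠ i₄ ∧ i₃ ≠ i₄) :
    ∃ y : ι ⊕ ι → ℂ, Function.Injective y ∧
    (∀ s, y (Sum.inl s) + y (Sum.inr s) = 0) ∧
    y (Sum.inl i₁) + y (Sum.inl i₂) + y (Sum.inl i₃) = 0 + y (Sum.inl i₄) := by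
  obtain ⟨h12, h13, h14, h23, h24, h34⟩ := hi
  let n : ι → ℕ := fun s => if s = i₁ then 1 else if s = i₂ then 2 else if s = i₃ then 4 else
    if s = i₄ then 7 else 8 + (Fintype.equivFin ι s : ℕ)
  have hpos : ∀ s, 0 < n s := by
    intro s
    simp only [n]
    split_ifs <;> omega
  have hinj : ∀ s t, n s = n t → s = t := by
    intro s t h
    simp only [n] at h
    split_ifs at h
    all_goals first
      | omega
      | (subst_vars; rfl)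
      | (have := (Fintype.equivFin ι).injective (Fin.ext (by omega : (Fintype.equivFin ι s : ℕ) = (Fintype.equivFin ι t : ℕ))); exact this)
  refine ⟨Sum.elim (fun s => (n s : ℂ)) fun s => -(n s : ℂ), ?_, ?_, ?_⟩
  · rintro (s | s) (t | t) h
    · simp only [Sum.elim_inl, Nat.cast_inj] at h
      rw [hinj s t h]
    · exfalso
      simp only [Sum.elim_inl, Sum.elim_inr] at h
      have : ((n s + n t : ℕ) : ℂ) = 0 := by push_cast; rw [h]; ring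
      rw [Nat.cast_eq_zero] at this
      have := hpos s
      omega
    · exfalso
      simp only [Sum.elim_inl, Sum.elim_inr] at h
      have : ((n s + n t : ℕ) : ℂ) = 0 := by push_cast; rw [← h]; ring
      rw [Nat.cast_eq_zero] at this
      have := hpos s
      omega
    · simp only [Sum.elim_inr, neg_inj, Nat.cast_inj] at h
      rw [hinj s t h]
  · intro s
    simp
  · have n1 : n i₁ = 1 := by simp [n]
    have n2 : n i₂ = 2 := by simp [n, Ne.symm h12]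
    have n3 : n i₃ = 4 := by simp [n, Ne.symm h13, Ne.symm h23]
    have n4 : n i₄ = 7 := by simp [n, Ne.symm h14, Ne.symm h24, Ne.symm h34]
    simp only [Sum.elim_inl, n1, n2, n3, n4]
    norm_num

/-- O5: the linear algebra. -/
theorem core3 (q : ℂ) (hq : q ≠ 0) (z : ι → ℂ)
    (hz : ∀ s, z s ≠ 0) (i₁ i₂ i₃ i₄ : ι)
    (hi : i₁ ≠ i₂ ∧ i₁ ≠ i₃ ∧ i₁ ≠ i₄ ∧ i₂ ≠ i₃ ∧ i₂ ≠ i₄ ∧ i₃ ≠ i₄)
    (hrel : z i₁ * z i₂ * z i₃ = q * z i₄) :
    ∃ (ψ : LinearMap.BilinForm ℂ (ι ⊕ ι → ℂ)) (G : Subgroup (Module.End ℂ (ι ⊕ ι → ℂ))ˣ)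
      (γ : (Module.End ℂ (ι ⊕ ι → ℂ))ˣ) (B : Module.End ℂ (ι ⊕ ι → ℂ)),
      ψ.Nondegenerate ∧ (∀ x, ψ x x = 0) ∧ γ ∈ G ∧
      (∀ g ∈ G, ∃ c : ℂ, ∀ x y, ψ ((g : Module.End ℂ (ι ⊕ ι → ℂ)) x)
        ((g : Module.End ℂ (ι ⊕ ι → ℂ)) y) = c * ψ x y) ∧
      (∀ U : Submodule ℂ (ι ⊕ ι → ℂ), (∀ X, InLie G X → ∀ u ∈ U, X u ∈ U) →
        ∃ U' : Submodule ℂ (ι ⊕ ι → ℂ), (∀ X, InLie G X → ∀ u ∈ U', X u ∈ U') ∧ IsCompl U U') ∧
      (γ : Module.End ℂ (ι ⊕ ι → ℂ)).IsSemisimple ∧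
      (∀ x y, ψ ((γ : Module.End ℂ (ι ⊕ ι → ℂ)) x) ((γ : Module.End ℂ (ι ⊕ ι → ℂ)) y) =
        q * ψ x y) ∧
      LinearMap.charpoly (γ : Module.End ℂ (ι ⊕ ι → ℂ)) =
        ∏ s, ((X - C (z s)) * (X - C (q / z s))) ∧
      (∀ s, (γ : Module.End ℂ (ι ⊕ ι → ℂ)) (Pi.single s 1) =
        (Sum.elim z (fun t => q / z t) s) • Pi.single s 1) ∧
      InLie G 0 ∧ ¬ InLie G B ∧ InfSim ψ B ∧
      ∀ Y : Module.End ℂ (ι ⊕ ι → ℂ), (∀ Z, InLie G Z → Y * Z = Z * Y) → B * Y = Y * B := by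
  set d : ι ⊕ ι → ℂ := Sum.elim z (fun t => q / z t) with hd
  have hd0 : ∀ s, d s ≠ 0 := by
    rintro (s | s)
    · exact hz s
    · exact div_ne_zero hq (hz s)
  have hdq : ∀ s, d (Sum.inl s) * d (Sum.inr s) = q := fun s => by
    simp only [hd, Sum.elim_inl, Sum.elim_inr]
    exact mul_div_cancel₀ q (hz s)
  have hu : DD d * DD (fun s => (d s)⁻¹) = 1 := by
    rw [DD_mul, ← DD_one]; congr 1; funext s; exact mul_inv_cancel₀ (hd0 s)
  have hu' : DD (fun s => (d s)⁻¹) * DD d = 1 := by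
    rw [DD_mul, ← DD_one]; congr 1; funext s; exact inv_mul_cancel₀ (hd0 s)
  obtain ⟨y, hy, hy1, hy2⟩ := exists_sep3 i₁ i₂ i₃ i₄ hi
  have hyL : InLie (grp3 i₁ i₂ i₃ i₄) (DD y) := inLie_grp3 hy1 hy2
  set β : ι ⊕ ι → ℂ := fun s => if s = Sum.inl i₁ then 1 else if s = Sum.inr i₁ then -1 else 0
    with hβ
  refine ⟨form, grp3 i₁ i₂ i₃ i₄, ⟨DD d, DD (fun s => (d s)⁻¹), hu, hu'⟩, DD β, form_nondeg,
    form_alt, ⟨d, q, rfl, hd0, hdq, ?_⟩, ?_, ?_, ?_, ?_, ?_, ?_, ?_, ?_, ?_, ?_⟩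
  · simpa [hd] using hrel
  · rintro g ⟨e, c, h1, -, h3, -⟩
    exact ⟨c, fun x y => by rw [h1]; exact form_DD h3 x y⟩
  · intro U hU
    obtain ⟨U', h1, h2⟩ := compl_exists hy (hU _ hyL)
    refine ⟨U', fun X hX u hu => ?_, h2⟩
    obtain ⟨x, rfl⟩ := diag_of_inLie3 hX
    exact h1 x u hu
  · exact semisimple_DD d
  · exact form_DD hdq
  · show LinearMap.charpoly (DD d) = _
    rw [charpoly_DD, Fintype.prod_sum_type, ← Finset.prod_mul_distrib]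
    rfl
  · intro s
    exact DD_single d s
  · have h0 : InLie (grp3 i₁ i₂ i₃ i₄) (DD (fun _ => 0)) :=
      inLie_grp3 (c := 0) (fun _ => by norm_num) (by norm_num)
    have e0 : (DD (fun _ => 0) : Module.End ℂ (ι ⊕ ι → ℂ)) = 0 := by
      refine LinearMap.ext fun v => ?_
      funext s
      simp
    rwa [e0] at h0
  · intro h
    have h1 := rel_of_inLie3 h
    rw [DD_single, DD_single, DD_single, DD_single, DD_single] at h1
    obtain ⟨h12, h13, h14, h23, h24, h34⟩ := hi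
    simp [hβ, Ne.symm h12, Ne.symm h13, Ne.symm h14] at h1
  · refine ⟨0, fun x y => ?_⟩
    rw [form_apply, form_apply, ← Finset.sum_add_distrib, zero_mul]
    refine Finset.sum_eq_zero fun s _ => ?_
    simp only [DD_apply, hβ]
    by_cases hs : s = i₁
    · subst hs; simp
    · simp [hs]
  · intro Y hY
    exact comm_all hy (hY _ hyL) β

end Pool.Agent.Helper84.EXO
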